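import Pool.Agent.Helper74.DR.St

/-! # DR MODULE PRS: parse trees -/

set_option autoImplicit false

namespace Pool.Agent.Helper36.DR

open Pool.Agent.Helper74.DR

private theorem pr_term {α : Type} (g : ContextFreeGrammar α) :
    ∀ w : List α, Pr g w.length (w.map Symbol.terminal) w
  | [] => Pr.nil
  | a :: w => Pr.term a _ w _ (pr_term g w)

private theorem pr_join {α : Type} {g : ContextFreeGrammar α} {n₁ : ℕ}
    {s : List (Symbol α g.NT)} {u : List α} (h : Pr g n₁ s u) :
    ∀ {n₂ : ℕ} {t : List (Symbol α g.NT)} {v : List α}, Pr g n₂ t v →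
      Pr g (n₁ + n₂) (s ++ t) (u ++ v) := by
  induction h with
  | nil =>
    intro n₂ t v h
    rw [Nat.zero_add]
    exact h
  | term a s w n _ ih =>
    intro n₂ t v h
    have h1 := Pr.term a _ _ _ (ih h)
    rw [show n + 1 + n₂ = n + n₂ + 1 by ring]
    exact h1
  | nont r s u v n m hr h1 h2 ih1 ih2 =>
    intro n₂ t v' h
    have h3 := Pr.nont r (s ++ t) u (v ++ v') n (m + n₂) hr h1 (ih2 h)
    rw [show n + m + 1 + n₂ = n + (m + n₂) + 1 by ring, List.append_assoc]
    exact h3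

private theorem pr_split {α : Type} {g : ContextFreeGrammar α} :
    ∀ (s t : List (Symbol α g.NT)) (n : ℕ) (w : List α), Pr g n (s ++ t) w →
      ∃ (u v : List α) (n₁ n₂ : ℕ), w = u ++ v ∧ Pr g n₁ s u ∧ Pr g n₂ t v
  | [], t, n, w, h => ⟨[], w, 0, n, rfl, Pr.nil, h⟩
  | x :: s, t, n, w, h => by
    rw [List.cons_append] at h
    cases h with
    | term a s' w' n' h' =>
      obtain ⟨u, v, n₁, n₂, rfl, h1, h2⟩ := pr_split s t _ _ h'
      exact ⟨a :: u, v, n₁ + 1, n₂, rfl, Pr.term _ _ _ _ h1, h2⟩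
    | nont r s' u' v' n' m' hr h1 h2 =>
      obtain ⟨u, v, n₁, n₂, rfl, h3, h4⟩ := pr_split s t _ _ h2
      exact ⟨u' ++ u, v, n' + n₁ + 1, n₂, by simp, Pr.nont _ _ _ _ _ _ hr h1 h3, h4⟩

/-- PRS -/
theorem hPRS : StPRS := by
  intro α g s w
  constructor
  · intro h
    refine Relation.ReflTransGen.head_induction_on
      (motive := fun s _ => ∃ n, Pr g n s w) h ⟨_, pr_term g w⟩ ?_
    rintro s s' ⟨r, hr, hrw⟩ - ⟨n, hn⟩
    obtain ⟨p, q, hs, hs'⟩ := hrw.exists_parts
    rw [hs', List.append_assoc] at hn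
    obtain ⟨u, v, n₁, n₂, rfl, h1, h2⟩ := pr_split _ _ _ _ hn
    obtain ⟨u', v', n₃, n₄, rfl, h3, h4⟩ := pr_split _ _ _ _ h2
    have h5 := Pr.nont r q u' v' n₃ n₄ hr h3 h4
    have h6 := pr_join h1 h5
    rw [hs, List.append_assoc]
    exact ⟨_, h6⟩
  · rintro ⟨n, h⟩
    induction h with
    | nil => exact ContextFreeGrammar.Derives.refl _
    | term a s w n _ ih => exact ih.append_left [Symbol.terminal a]
    | nont r s u v n m hr _ _ ih1 ih2 =>
      have h1 : g.Produces (Symbol.nonterminal r.input :: s) (r.output ++ s) :=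
        ⟨r, hr, ContextFreeRule.Rewrites.head s⟩
      rw [List.map_append]
      exact (h1.trans_derives (ih1.append_right s)).trans (ih2.append_left _)

end Pool.Agent.Helper36.DR
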